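import Mathlib

namespace Pool.Agent.Results.MP_bba144_nt.Both

open Polynomial Finset

/-- generalized central trinomial coefficient -/
noncomputable def T (b c : ℤ) (m : ℕ) : ℤ := ((X ^ 2 + C b * X + C c : ℤ[X]) ^ m).coeff m

section
variable {R : Type} [CommRing R]

noncomputable def a (b c : R) (m k : ℕ) : R := ((X ^ 2 + C b * X + C c : R[X]) ^ m).coeff k

theorem a_map {S : Type} [CommRing S] (φ : R →+* S) (b c : R) (m k : ℕ) :
    φ (a b c m k) = a (φ b) (φ c) m k := by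
  rw [a, ← coeff_map]
  simp [a]

theorem a_succ (b c : R) (m k : ℕ) :
    a b c (m + 1) (k + 2) = a b c m k + b * a b c m (k + 1) + c * a b c m (k + 2) := by
  simp only [a, pow_succ' _ m, add_mul, coeff_add, mul_assoc, coeff_C_mul, coeff_X_mul,
    coeff_X_pow_mul]

theorem a_one (b c : R) (m : ℕ) : a b c (m + 1) 1 = b * a b c m 0 + c * a b c m 1 := by
  simp only [a, pow_succ' _ m, add_mul, coeff_add, mul_assoc, coeff_C_mul, coeff_X_mul,
    coeff_X_pow_mul']
  simp

theorem a_der (b c : R) (m k : ℕ) : a b c (m + 1) (k + 2) * (k + 2) =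
    (m + 1) * (2 * a b c m k + b * a b c m (k + 1)) := by
  have h := coeff_derivative ((X ^ 2 + C b * X + C c : R[X]) ^ (m + 1)) (k + 1)
  have h2 : derivative ((X ^ 2 + C b * X + C c : R[X]) ^ (m + 1)) =
      C ((m : R) + 1) * (C 2 * (X * (X ^ 2 + C b * X + C c) ^ m) +
        C b * (X ^ 2 + C b * X + C c) ^ m) := by
    rw [derivative_pow_succ]
    simp only [derivative_add, derivative_X_pow, derivative_C_mul_X, derivative_C]
    norm_num
    rw [show (C 2 : R[X]) = 2 from rfl]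
    ring
  rw [h2] at h
  simp only [coeff_C_mul, coeff_add, coeff_X_mul] at h
  simp only [a]
  rw [h]
  push_cast
  ring

theorem a_odd (b c : R) (m k : ℕ) : b ∣ a b c m (2 * k + 1) := by
  induction m generalizing k with
  | zero => simp [a, coeff_one]
  | succ m ih =>
    rcases k with _ | k
    · rw [a_one]
      exact dvd_add (dvd_mul_right _ _) ((ih 0).mul_left _)
    · rw [show 2 * (k + 1) + 1 = (2 * k + 1) + 2 by ring, a_succ]
      exact dvd_add (dvd_add (ih k) (dvd_mul_right _ _)) ((ih (k + 1)).mul_left _)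

variable [IsDomain R] [CharZero R]

theorem rec1 (b c : R) (m : ℕ) :
    a b c (m + 1) (m + 1) = b * a b c m m + 2 * c * a b c m (m + 1) := by
  rcases m with _ | m
  · simp [a, coeff_one]
  have h1 := a_der b c (m + 1) m
  have h2 := a_succ b c (m + 1) m
  have h3 : a b c (m + 1 + 1) (m + 2) = 2 * a b c (m + 1) m + b * a b c (m + 1) (m + 1) := by
    refine mul_right_cancel₀ (b := (m : R) + 2) (by exact_mod_cast (by omega : m + 2 ≠ 0)) ?_
    rw [h1]
    push_cast
    ring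
  linear_combination 2 * h2 - h3

theorem closed (b c : R) (n : ℕ) :
    b * ∑ j ∈ range (n + 1), (8 * c * j + 4 * c + b) * a b (c ^ 2) j j ^ 2 *
      (b - 2 * c) ^ (2 * (n - j)) =
    2 * b * c * (n + 1) ^ 2 * (c * a b (c ^ 2) n (n + 1) - a b (c ^ 2) n n) ^ 2 +
      (n + 1) * (b + 2 * c) * (a b (c ^ 2) (n + 1) (n + 1) * a b (c ^ 2) n n) := by
  induction n with
  | zero =>
    rw [rec1]
    simp [a, coeff_one]
    ring
  | succ n ih =>
    have h : ∑ j ∈ range (n + 1), (8 * c * j + 4 * c + b) * a b (c ^ 2) j j ^ 2 *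
        (b - 2 * c) ^ (2 * (n + 1 - j)) = (b - 2 * c) ^ 2 * ∑ j ∈ range (n + 1),
        (8 * c * j + 4 * c + b) * a b (c ^ 2) j j ^ 2 * (b - 2 * c) ^ (2 * (n - j)) := by
      rw [mul_sum]
      refine sum_congr rfl fun j hj => ?_
      rw [show 2 * (n + 1 - j) = 2 * (n - j) + 2 by have := mem_range.1 hj; omega]
      ring
    rw [sum_range_succ, h, mul_add, mul_left_comm, ih, rec1 b (c ^ 2) (n + 1)]
    have h1 := a_der b (c ^ 2) n n
    have h2 := rec1 b (c ^ 2) n
    simp only [Nat.sub_self, mul_zero, pow_zero, mul_one]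
    push_cast
    set V := a b (c ^ 2) (n + 1) (n + 2)
    have e : 2 * b * c * ((n : R) + 1 + 1) ^ 2 * (c * V - a b (c ^ 2) (n + 1) (n + 1)) ^ 2 +
      (n + 1 + 1) * (b + 2 * c) * ((b * a b (c ^ 2) (n + 1) (n + 1) + 2 * c ^ 2 * V) *
        a b (c ^ 2) (n + 1) (n + 1)) =
      2 * b * c * (c * (V * (n + 2)) - (n + 2) * a b (c ^ 2) (n + 1) (n + 1)) ^ 2 +
      (b + 2 * c) * (((n + 2) * b * a b (c ^ 2) (n + 1) (n + 1) + 2 * c ^ 2 * (V * (n + 2))) *
        a b (c ^ 2) (n + 1) (n + 1)) := by ring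
    rw [e, h1, h2]
    ring

theorem odd_prod (b c : R) (n : ℕ) : b ∣ a b c (n + 1) (n + 1) * a b c n n := by
  obtain ⟨k, rfl | rfl⟩ := n.even_or_odd'
  · exact (a_odd b c _ k).mul_right _
  · exact (a_odd b c _ k).mul_left _

end

theorem last (p : ℕ) [Fact p.Prime] (n : ℕ) (hp : p = 2 * n + 1) (b c : ZMod p) :
    a b c (2 * n) (2 * n) = (b ^ 2 - 4 * c) ^ n := by
  have hpp : p.Prime := Fact.out
  have h2 : (2 : ZMod p) ≠ 0 := by
    intro h
    have := (Nat.prime_dvd_prime_iff_eq hpp Nat.prime_two).1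
      ((ZMod.natCast_eq_zero_iff 2 p).1 (by exact_mod_cast h))
    omega
  have hc : ∀ k, k ≤ 2 * n → ((2 * n).choose k : ZMod p) = (-1) ^ k := by
    intro k hk
    induction k with
    | zero => simp
    | succ k ih =>
      have : (((2 * n + 1).choose (k + 1) : ℕ) : ZMod p) = 0 :=
        (ZMod.natCast_eq_zero_iff _ _).2 (by
          rw [← hp]; exact hpp.dvd_choose_self (by omega) (by omega))
      rw [Nat.choose_succ_succ, Nat.cast_add, ih (by omega)] at this
      rw [pow_succ]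
      linear_combination this
  obtain ⟨β, rfl⟩ : ∃ β, b = 2 * β := ⟨b / 2, by field_simp⟩
  have e : (X ^ 2 + C (2 * β) * X + C c : (ZMod p)[X]) = (X + C β) ^ 2 + C (c - β ^ 2) := by
    simp only [map_mul, map_sub, map_pow, show (C 2 : (ZMod p)[X]) = 2 from rfl]
    ring
  rw [a, e, add_pow, finsetSum_coeff, sum_eq_single n]
  · rw [← pow_mul, ← C_pow, ← map_natCast C, coeff_mul_C, coeff_mul_C, coeff_X_add_C_pow,
      hc n (by omega), show 2 * n - n = n by omega]
    have h4 : (4 : ZMod p) ^ n = 1 := by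
      rw [show (4 : ZMod p) = 2 ^ 2 by norm_num, ← pow_mul, show 2 * n = p - 1 by omega]
      exact ZMod.pow_card_sub_one_eq_one h2
    rw [show (2 * β) ^ 2 - 4 * c = 4 * ((c - β ^ 2) * -1) by ring, mul_pow, mul_pow, h4]
    simp
  · intro j hj hne
    have := mem_range.1 hj
    rw [← pow_mul, ← C_pow, ← map_natCast C, coeff_mul_C, coeff_mul_C, coeff_X_add_C_pow]
    rcases lt_or_gt_of_ne hne with h | h
    · rw [Nat.choose_eq_zero_of_lt (by omega)]
      simp
    · rw [(ZMod.natCast_eq_zero_iff _ _).2 (hpp.dvd_choose (by omega) (by omega) (by omega))]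
      simp
  · intro h
    exact absurd (mem_range.2 (by omega)) h

theorem top (p : ℕ) [Fact p.Prime] (b c : ZMod p) : a b c p p = b := by
  have hpp : p.Prime := Fact.out
  rw [a, add_pow_char, add_pow_char, mul_pow, ← C_pow, ← C_pow, ← pow_mul]
  have := hpp.pos
  simp only [coeff_add, coeff_C_mul, coeff_X_pow, coeff_C, ZMod.pow_card]
  rw [if_neg (show ¬ p = 2 * p by omega), if_neg this.ne']
  simp

theorem result (b c : ℤ) :
    (∀ n : ℕ, 1 ≤ n → (n : ℤ) ∣ ∑ j ∈ range n,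
      (8 * c * j + 4 * c + b) * T b (c ^ 2) j ^ 2 * (b - 2 * c) ^ (2 * (n - 1 - j))) ∧
    ∀ (p : ℕ) [Fact p.Prime], p ≠ 2 → ¬ (p : ℤ) ∣ b * (b - 2 * c) →
      (p : ℤ) ^ 2 ∣ (∑ j ∈ range p, (8 * c * j + 4 * c + b : ℚ) * (T b (c ^ 2) j : ℚ) ^ 2 /
        (b - 2 * c : ℚ) ^ (2 * j) - p * (b + 2 * c) * legendreSym p (b ^ 2 - 4 * c ^ 2)).num := by
  constructor
  · intro n hn
    obtain ⟨n, rfl⟩ := Nat.exists_eq_add_of_le' hn
    have h := closed (X : ℤ[X]) (C c) n
    obtain ⟨W, hW⟩ := odd_prod (X : ℤ[X]) (C c ^ 2) n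
    have h2 := mul_left_cancel₀ X_ne_zero (h.trans (show _ = X * (((n : ℤ[X]) + 1) *
      (2 * C c * ((n : ℤ[X]) + 1) * (C c * a X (C c ^ 2) n (n + 1) - a X (C c ^ 2) n n) ^ 2 +
        (X + 2 * C c) * W)) by rw [hW]; ring))
    have h3 := congrArg (evalRingHom b) h2
    rw [map_mul] at h3
    simp only [map_sum, map_mul, map_add, map_pow, map_sub, a_map, coe_evalRingHom, eval_X,
      eval_C, map_natCast, map_ofNat, map_one] at h3
    exact ⟨_, by push_cast; exact h3⟩
  · intro p _ hp2 hd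
    have hpp : p.Prime := Fact.out
    obtain ⟨n, hn⟩ := hpp.odd_of_ne_two hp2
    have hz := Nat.prime_iff_prime_int.1 hpp
    have hb : ¬ (p : ℤ) ∣ b := fun h => hd (h.mul_right _)
    have he : ¬ (p : ℤ) ∣ b - 2 * c := fun h => hd (h.mul_left _)
    have he0 : (b - 2 * c : ℚ) ≠ 0 := by
      intro h
      exact he (by rw [show b - 2 * c = 0 by exact_mod_cast h]; simp)
    set S := ∑ j ∈ range (2 * n + 1), (8 * c * j + 4 * c + b) * a b (c ^ 2) j j ^ 2 *
      (b - 2 * c) ^ (2 * (2 * n - j)) with hS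
    set L := legendreSym p (b ^ 2 - 4 * c ^ 2) with hL
    have h1 : (p : ℤ) ∣ a b (c ^ 2) (2 * n + 1) (2 * n + 1) * a b (c ^ 2) (2 * n) (2 * n) -
        b * L * (b - 2 * c) ^ (2 * (2 * n)) := by
      rw [← ZMod.intCast_zmod_eq_zero_iff_dvd]
      have e1 := a_map (Int.castRingHom (ZMod p)) b (c ^ 2)
      simp only [eq_intCast] at e1
      have e2 : ((b - 2 * c : ℤ) : ZMod p) ^ (2 * n) = 1 := by
        rw [show 2 * n = p - 1 by omega]
        exact ZMod.pow_card_sub_one_eq_one (by rwa [Ne, ZMod.intCast_zmod_eq_zero_iff_dvd])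
      rw [Int.cast_sub, Int.cast_mul, e1, e1, last p n hn, ← hn, top, Int.cast_mul, Int.cast_mul,
        hL, legendreSym.eq_pow, Int.cast_pow (b - 2 * c), pow_mul', e2, show p / 2 = n by omega]
      push_cast
      ring
    have h2 : (p : ℤ) ^ 2 ∣ S - p * (b + 2 * c) * L * (b - 2 * c) ^ (2 * (2 * n)) := by
      refine ((hz.coprime_iff_not_dvd.2 hb).pow_left (m := 2)).dvd_of_dvd_mul_left ?_
      obtain ⟨w, hw⟩ := h1
      have h3 := closed b c (2 * n)
      have h4 : ((2 * n : ℕ) : ℤ) + 1 = p := by rw [hn]; push_cast; ring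
      rw [← hS, h4] at h3
      exact ⟨2 * b * c * (c * a b (c ^ 2) (2 * n) (2 * n + 1) - a b (c ^ 2) (2 * n) (2 * n)) ^ 2 +
        (b + 2 * c) * w, by linear_combination h3 + p * (b + 2 * c) * hw⟩
    set q : ℚ := _ - _ with hq
    have h3 : q * (b - 2 * c) ^ (2 * (2 * n)) =
        (S - p * (b + 2 * c) * L * (b - 2 * c) ^ (2 * (2 * n)) : ℤ) := by
      rw [hq, hS, sub_mul, sum_mul]
      push_cast
      nth_rewrite 1 [hn]
      congr 1
      refine sum_congr rfl fun j hj => ?_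
      rw [show 2 * (2 * n) = 2 * (2 * n - j) + 2 * j by have := mem_range.1 hj; omega, pow_add]
      rw [mul_comm (_ ^ (2 * (2 * n - j))), ← mul_assoc, div_mul_cancel₀ _ (pow_ne_zero _ he0)]
      rfl
    have h4 : q.num * (b - 2 * c) ^ (2 * (2 * n)) =
        (S - p * (b + 2 * c) * L * (b - 2 * c) ^ (2 * (2 * n))) * q.den := by
      have := Rat.mul_den_eq_num q
      have h5 : (q.num * (b - 2 * c) ^ (2 * (2 * n)) : ℚ) =
          (S - p * (b + 2 * c) * L * (b - 2 * c) ^ (2 * (2 * n)) : ℤ) * q.den := by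
        rw [← h3, ← this]; ring
      exact_mod_cast h5
    exact ((hz.coprime_iff_not_dvd.2 he).pow (m := 2) (n := 2 * (2 * n))).dvd_of_dvd_mul_right
      (h4 ▸ h2.mul_right _)

end Pool.Agent.Results.MP_bba144_nt.Both
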